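import Pool.Agent.H1.G9.LVU
import Pool.Agent.H19.G9.LCF
import Pool.Agent.H21.BT.All
import Pool.Agent.H22.GS.Fin
import Pool.Agent.H3.BES.Fin
import Pool.Agent.H3.BT.GET
import Pool.Agent.H3.BT.OntC
import Pool.Agent.H3.G9.LFC
import Pool.Agent.H37.G9.NRS
import Pool.Agent.H38.G9.BSU
import Pool.Agent.H38.G9.GMD
import Pool.Agent.H5.G9.LF0
import Pool.Agent.H50.G9.UBB
import Pool.Agent.H6.G9.QT
import Pool.Agent.H6.G9.TOP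
import Pool.Agent.H70.G9.ONU
import Pool.Agent.H70.G9.Sb
import Pool.Agent.H70.G9.U2
import Pool.Agent.H72.G9.UXC
import Pool.Agent.H78.G9.E3R
import Pool.Agent.H81.G9.EU
import Pool.Agent.H81.G9.EUS
import Pool.Agent.H93.G9.FIN
import Pool.Agent.H93.G9.FNT
import Pool.Agent.H93.G9.PGN

/-!
# Theorem (H) (MP_c59857_nt): composition
-/

set_option autoImplicit false

namespace Pool.Agent.H22.G9.Fin

theorem aBT : Pool.Agent.H21.BT.T_BT := Pool.Agent.H21.BT.aBT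
theorem aMSU : Pool.Agent.H3.BES.T_MSU := (Pool.Agent.H3.BES.msu_of Pool.Agent.H20.ENM.pf_QMS)
theorem aBNM : Pool.Agent.H6.GS2.T_BNM := Pool.Agent.H22.GS.Fin.aBNM
theorem aDQG : Pool.Agent.H6.GS2.T_DQG := Pool.Agent.H22.GS.Fin.aDQG
theorem aOPD : Pool.Agent.H6.GS2.T_OPD := Pool.Agent.H22.GS.Fin.aOPD
theorem aPCA : Pool.Agent.H6.GS2.T_PCA := Pool.Agent.H22.GS.Fin.aPCA
theorem aPCS : Pool.Agent.H6.GS2.T_PCS := Pool.Agent.H22.GS.Fin.aPCS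
theorem aSEP : Pool.Agent.H6.GS2.T_SEP := Pool.Agent.H22.GS.Fin.aSEP
theorem aKCH : Pool.Agent.H72.EN.T_KCH := Pool.Agent.H22.GS.Fin.aKCH
theorem aLIM : Pool.Agent.H72.EN.T_LIM := Pool.Agent.H22.GS.Fin.aLIM
theorem aCH3 : Pool.Agent.H72.GS2.T_CH3 := Pool.Agent.H22.GS.Fin.aCH3
theorem aDLG : Pool.Agent.H72.GS2.T_DLG := Pool.Agent.H22.GS.Fin.aDLG
theorem aMNX : Pool.Agent.H72.GS2.T_MNX := Pool.Agent.H22.GS.Fin.aMNX
theorem aBES : Pool.Agent.H93.EB.T_BES := Pool.Agent.H22.GS.Fin.aBES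
theorem aMNG : Pool.Agent.H93.GS.T_MNG := Pool.Agent.H22.GS.Fin.aMNG
theorem aLCF : Pool.Agent.H6.G9.T_LCF := Pool.Agent.H19.G9.pf_LCF
theorem aONT : Pool.Agent.H3.BT.T_ONT := Pool.Agent.H3.BT.pf_ONT aBT
theorem aLFC : Pool.Agent.H6.G9.T_LFC := Pool.Agent.H3.G9.pf_LFC
theorem aNRS : Pool.Agent.H6.G9.T_NRS := Pool.Agent.H37.G9.pf_NRS
theorem aGMD : Pool.Agent.H6.G9.T_GMD := Pool.Agent.H38.G9.pf_GMD
theorem aLF0 : Pool.Agent.H6.G9.T_LF0 := Pool.Agent.H5.G9.pf_LF0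
theorem aUBB : Pool.Agent.H6.G9.T_UBB := Pool.Agent.H50.G9.pf_UBB aLF0
theorem aUX1 : Pool.Agent.H6.G9.T_UX1 := Pool.Agent.H70.G9.pf_UX1
theorem aU2 : Pool.Agent.H6.G9.T_U2 := Pool.Agent.H70.G9.pf_U2 aUBB aLF0
theorem aUXC : Pool.Agent.H6.G9.T_UXC := Pool.Agent.H72.G9.pf_UXC aSEP aOPD aBNM aLFC aLF0 aLCF aNRS aUX1 aUBB
theorem aE3R : Pool.Agent.H6.G9.T_E3R := Pool.Agent.H78.G9.pf_E3R
theorem aPGN : Pool.Agent.H6.G9.T_PGN := Pool.Agent.H93.G9.pf_PGN aKCH aLIM aBES aCH3 aMNG aDLG aMNX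
theorem aBTS : Pool.Agent.H3.BT.T_BTS := Pool.Agent.H3.BT.pf_BTS aONT aMSU
theorem aBSU : Pool.Agent.H6.G9.T_BSU := Pool.Agent.H38.G9.pf_BSU aBTS aNRS aUBB
theorem aTOP : Pool.Agent.H6.G9.T_TOP := Pool.Agent.H6.G9.pf_TOP aE3R aPGN
theorem aONU : Pool.Agent.H6.G9.T_ONU := Pool.Agent.H70.G9.pf_ONU aUXC aU2 aUBB aSEP aOPD aBNM aPCA aPCS aDQG
theorem aLVU : Pool.Agent.H6.G9.T_LVU := Pool.Agent.H1.G9.pf_LVU aONU aUBB
theorem aEU : Pool.Agent.H6.G9.T_EU := Pool.Agent.H81.G9.pf_EU aLVU aBSU aGMD aUBB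
theorem aEUS : Pool.Agent.H6.G9.T_EUS := Pool.Agent.H81.G9.pf_EUS aLVU aBSU aGMD aUBB
theorem aG99 : Pool.Agent.H6.G9.T_G99 := Pool.Agent.H93.G9.pf_G99 aEU aTOP
theorem aQT : Pool.Agent.H6.G9.T_QT := Pool.Agent.H6.G9.pf_QT aEUS aTOP
theorem aG9T : Pool.Agent.H6.G9.T_G9T := Pool.Agent.H93.G9.pf_G9T aQT

/-- theorem (H), one range of lengths -/
theorem g99 : Pool.Agent.H6.G9.T_G99 := aG99

/-- theorem (H), all iterated logarithms -/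
theorem g9t : Pool.Agent.H6.G9.T_G9T := aG9T

end Pool.Agent.H22.G9.Fin
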